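import Mathlib

namespace Pool.Agent.Results.MP_78a33a_lc.Yes

open Set Pointwise

/-- transitions: state, letter, and for every child a state and an increment (`none` = reset) -/
abbrev Tr {S : Type} (rk : S → ℕ) (Q : Type) (m : ℕ) :=
  Q × Σ a : S, Fin (rk a) → Q × Option (Fin m → ℕ)

/-- there is a run on the tree whose root carries the pair `(q, s)` -/
def Acc {S Q : Type} {rk : S → ℕ} {m : ℕ} (Δ : Set (Tr rk Q m)) (C : Set (Fin m → ℕ)) :
    WType (fun a => Fin (rk a)) → Q → (Fin m → ℕ) → Prop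
  | .mk a f, q, s => ∃ ch, (q, ⟨a, ch⟩) ∈ Δ ∧ (rk a = 0 → s ∈ C) ∧
      ∀ i, Acc Δ C (f i) (ch i).1 ((ch i).2.elim 0 (s + ·))

def Recog {S : Type} (rk : S → ℕ) (reset : Bool) (L : Set (WType fun a => Fin (rk a))) : Prop :=
  ∃ m, 1 ≤ m ∧ ∃ (Q : Type) (_ : Finite Q) (q0 : Q) (Δ : Set (Tr rk Q m)) (C : Set (Fin m → ℕ)),
    Δ.Finite ∧ IsSemilinearSet C ∧ (reset = false → ∀ δ ∈ Δ, ∀ i, (δ.2.2 i).2 ≠ none) ∧
    L = {t | Acc Δ C t q0 0}

section
variable {Q M : Type} [AddCommMonoid M] (E : Q → Q → Set M)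

inductive W (S : Set Q) : Q → Q → M → Prop
  | one {q q' x} : x ∈ E q q' → W S q q' x
  | cat {q k q' x y} : k ∈ S → W S q k x → W S k q' y → W S q q' (x + y)

variable {E}

lemma W.mono {S T : Set Q} (h : S ⊆ T) {q q' x} (k : W E S q q' x) : W E T q q' x := by
  induction k with
  | one a => exact .one a
  | cat a _ _ b c => exact .cat (h a) b c

lemma kleene (hE : ∀ q q', IsSemilinearSet (E q q')) {S : Set Q} (hS : S.Finite) :
    ∀ q q', IsSemilinearSet {x | W E S q q' x} := by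
  induction S, hS using Set.Finite.induction_on with
  | empty =>
    intro q q'
    convert hE q q'
    ext x
    exact ⟨fun k => by cases k with | one a => exact a | cat a => exact a.elim, .one⟩
  | @insert k S _ _ ih =>
    intro q q'
    convert (ih q q').union (((ih q k).add (ih k k).closure).add (ih k q'))
    ext x
    have cl : ∀ {x}, W E S k k x → x ∈ AddSubmonoid.closure {x | W E S k k x} :=
      fun h => AddSubmonoid.subset_closure h
    constructor
    · intro h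
      induction h with
      | one a => exact Or.inl (.one a)
      | cat a _ _ b c =>
        rcases a with rfl | a <;> rcases b with b | ⟨_, ⟨x, b1, y, b2, rfl⟩, z, b3, rfl⟩ <;>
          rcases c with c | ⟨_, ⟨x', c1, y', c2, rfl⟩, z', c3, rfl⟩
        exacts [Or.inr ⟨_, ⟨_, b, 0, zero_mem _, rfl⟩, _, c, by simp⟩,
          Or.inr ⟨_, ⟨_, b, _, add_mem (cl c1) c2, rfl⟩, _, c3, by simp [add_assoc]⟩,
          Or.inr ⟨_, ⟨_, b1, _, add_mem b2 (cl b3), rfl⟩, _, c, by simp [add_assoc]⟩,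
          Or.inr ⟨_, ⟨_, b1, _, add_mem (add_mem b2 (cl b3)) (add_mem (cl c1) c2), rfl⟩, _, c3,
            by simp [add_assoc]⟩, Or.inl (.cat a b c),
          Or.inr ⟨_, ⟨_, .cat a b c1, _, c2, rfl⟩, _, c3, by simp [add_assoc]⟩,
          Or.inr ⟨_, ⟨_, b1, _, b2, rfl⟩, _, .cat a b3 c, by simp [add_assoc]⟩,
          Or.inr ⟨_, ⟨_, b1, _, add_mem (add_mem b2 (cl (.cat a b3 c1))) c2, rfl⟩, _, c3,
            by simp [add_assoc]⟩]
    · rintro (h | ⟨_, ⟨x, b1, y, b2, rfl⟩, z, b3, rfl⟩)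
      · exact h.mono (subset_insert _ _)
      refine .cat (mem_insert _ _) ?_ (b3.mono (subset_insert _ _))
      replace b1 := W.mono (subset_insert k S) b1
      induction b2 using AddSubmonoid.closure_induction_right with
      | zero => simpa
      | add_right a _ b hb ih =>
        simp only [← add_assoc]
        exact .cat (mem_insert _ _) ih (W.mono (subset_insert _ _) hb)

lemma tri {m k K : ℕ} (hk : m < k) (n : ℕ → M →+ ℕ) (r : ℕ → M →+ (Fin m → ℕ)) {R : Set M}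
    (hR : IsSemilinearSet R) (h1 : ∀ j < k, ∀ x ∈ R, ∀ y ∈ R, r j x = r j y → n j x = n j y)
    (h2 : ∀ j, j + 1 < k → ∀ x ∈ R, ∀ c, r (j + 1) x c ≤ r j x c + K * (n (j + 1) x + 1) ∧
      r j x c ≤ r (j + 1) x c + K) :
    ∃ B, ∀ x ∈ R, ∃ j < k, n j x ≤ B * (1 + ∑ i ∈ Finset.Ioo j k, n i x) := by
  classical
  obtain ⟨S, hS, h3, rfl⟩ := hR
  suffices ∀ t ∈ S, ∃ B, ∀ x ∈ t, ∃ j < k, n j x ≤ B * (1 + ∑ i ∈ Finset.Ioo j k, n i x) by
    choose! B hB using this
    obtain ⟨b, hb⟩ := (hS.image B).bddAbove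
    refine ⟨b, fun x ⟨t, ht, hx⟩ => (hB t ht x hx).imp fun j h => ⟨h.1, h.2.trans ?_⟩⟩
    exact Nat.mul_le_mul_right _ (hb (mem_image_of_mem B ht))
  intro t ht
  obtain ⟨a, T, rfl⟩ := isLinearSet_iff.1 (h3 t ht)
  have mem : ∀ y ∈ AddSubmonoid.closure (T : Set M), a + y ∈ ⋃₀ S := fun y hy =>
    ⟨_, ht, y, hy, rfl⟩
  by_cases c : ∀ j < k, ∃ π ∈ T, n j π ≠ 0 ∧ ∀ i ∈ Finset.Ioo j k, n i π = 0
  · exfalso
    choose! π p1 p2 p3 using c
    have pc : ∀ j < k, π j ∈ AddSubmonoid.closure (T : Set M) := fun j hj =>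
      AddSubmonoid.subset_closure (p1 j hj)
    have st : ∀ j < k, ∀ i, j ≤ i → i < k → r i (π j) = r j (π j) := by
      intro j hj i hi
      induction i, hi using Nat.le_induction with
      | base => exact fun _ => rfl
      | succ i hi ih =>
        intro hl
        rw [← ih (by omega)]
        funext c
        have z := p3 j hj (i + 1) (by simp; omega)
        obtain ⟨N, hN⟩ : ∃ N, N = r i a c + r (i + 1) a c + K * (n (i + 1) a + 1) + 1 := ⟨_, rfl⟩
        have := h2 i hl _ (mem _ (nsmul_mem (pc j hj) N)) c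
        simp only [map_add, map_nsmul, z, Pi.add_apply, Pi.smul_apply, smul_eq_mul] at this
        rcases lt_trichotomy (r (i + 1) (π j) c) (r i (π j) c) with e | e | e
        · nlinarith [Nat.mul_le_mul_left N (Nat.succ_le_of_lt e)]
        · exact e
        · nlinarith [Nat.mul_le_mul_left N (Nat.succ_le_of_lt e)]
    obtain ⟨g, g1, g2⟩ := Fintype.not_linearIndependent_iff.1 fun h : LinearIndependent ℤ
      fun j : Fin k => fun c => (r j (π j) c : ℤ) => by
        have := h.fintype_card_le_finrank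
        simp at this; omega
    obtain ⟨i, i1, i2⟩ := Finset.exists_max_image (Finset.univ.filter fun j => g j ≠ 0) id
      (g2.imp fun j h => by simpa)
    simp only [Finset.mem_filter, Finset.mem_univ, true_and, id] at i1 i2
    have sp : ∀ (φ : M →+ ℕ), (φ (a + ∑ j : Fin k, (g j).toNat • π j) : ℤ) -
        φ (a + ∑ j : Fin k, (-g j).toNat • π j) = ∑ j, g j * φ (π j) := fun φ => by
      simp only [map_add, map_sum, map_nsmul, smul_eq_mul]
      push_cast
      rw [add_sub_add_left_eq_sub, ← Finset.sum_sub_distrib]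
      exact Finset.sum_congr rfl fun j _ => by rw [← sub_mul, Int.toNat_sub_toNat_neg]
    have := h1 i i.2 _ (mem _ (sum_mem fun (j : Fin k) _ => nsmul_mem (pc j j.2) (g j).toNat)) _
      (mem _ (sum_mem fun (j : Fin k) _ => nsmul_mem (pc j j.2) (-g j).toNat)) (funext fun c => by
        have e := sp ((Pi.evalAddMonoidHom _ c).comp (r i))
        have e' := congrFun g1 c
        simp only [Finset.sum_apply, Pi.smul_apply, smul_eq_mul, Pi.zero_apply] at e'
        rw [Finset.sum_congr rfl (g := fun j => g j * r j (π j) c) fun j _ => by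
          by_cases z : g j = 0
          · simp [z]
          · simp [st j j.2 i (i2 j z) i.2], e', sub_eq_zero] at e
        exact_mod_cast e)
    have e := sp (n i)
    rw [this, sub_self, Finset.sum_eq_single i (fun j _ e => ?_) (by simp)] at e
    · exact mul_ne_zero i1 (by exact_mod_cast p2 i i.2) e.symm
    by_cases z : g j = 0
    · simp [z]
    · simp [p3 j j.2 i (by simpa using lt_of_le_of_ne (i2 j z) e)]
  push Not at c
  obtain ⟨j, hj, c⟩ := c
  refine ⟨n j a + ∑ π ∈ T, n j π, ?_⟩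
  rintro _ ⟨y, hy, rfl⟩
  refine ⟨j, hj, ?_⟩
  have : n j y ≤ (∑ π ∈ T, n j π) * ∑ i ∈ Finset.Ioo j k, n i y := by
    induction hy using AddSubmonoid.closure_induction with
    | zero => simp
    | add a b _ _ h h' => simp only [map_add, Finset.sum_add_distrib, mul_add]; omega
    | mem π hπ =>
      by_cases z : n j π = 0
      · omega
      obtain ⟨i, i1, i2⟩ := c π hπ z
      exact (Finset.single_le_sum (f := fun π => n j π) (fun _ _ => zero_le) hπ).trans
        (Nat.le_mul_of_pos_right _ ((Nat.pos_of_ne_zero i2).trans_le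
          (Finset.single_le_sum (f := fun i => n i π) (fun _ _ => zero_le) i1)))
  simp only [vadd_eq_add, map_add, Finset.sum_add_distrib]
  generalize ∑ i ∈ Finset.Ioo j k, n i a = u, ∑ i ∈ Finset.Ioo j k, n i y = v,
    ∑ π ∈ T, n j π = w at *
  calc _ ≤ n j a + w * v := Nat.add_le_add_left this _
    _ ≤ n j a + w * v + (w + n j a * u + n j a * v + w * u) := Nat.le_add_right _ _
    _ = _ := by ring

end

abbrev T := WType fun a : Fin 3 => Fin a.val
def lf : T := .mk 0 fun i => i.elim0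
def un (t : T) : T := .mk 1 fun _ => t
def bn (l r : T) : T := .mk 2 fun i => if i.val = 0 then l else r

def comb (n n' : ℕ → ℕ) : ℕ → ℕ → T
  | 0, _ => lf
  | c + 1, i => un^[n i] (bn (un^[n' i] lf) (comb n n' c (i + 1)))

variable {Q : Type} {m : ℕ} {Δ : Set (Tr (Fin.val : Fin 3 → ℕ) Q m)} {C : Set (Fin m → ℕ)}

lemma acc_lf {q s} : Acc Δ C lf q s ↔ (q, ⟨0, fun i => i.elim0⟩) ∈ Δ ∧ s ∈ C :=
  ⟨fun ⟨ch, a, b, _⟩ => ⟨by rwa [show ch = fun i => i.elim0 from funext fun i => i.elim0] at a, b rfl⟩,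
    fun h => ⟨_, h.1, fun _ => h.2, fun i => i.elim0⟩⟩

lemma acc_un {t q s} : Acc Δ C (un t) q s ↔
    ∃ p e, (q, ⟨1, fun _ => (p, e)⟩) ∈ Δ ∧ Acc Δ C t p (e.elim 0 (s + ·)) :=
  ⟨fun ⟨ch, a, _, c⟩ => ⟨(ch (0 : Fin 1)).1, (ch (0 : Fin 1)).2, by
    rwa [show ch = fun _ => ch (0 : Fin 1) from
      funext fun i => congrArg ch (Subsingleton.elim (α := Fin 1) _ _)] at a, c _⟩,
    fun ⟨_, _, a, b⟩ => ⟨_, a, by simp, fun _ => b⟩⟩

lemma acc_bn {l r q s} : Acc Δ C (bn l r) q s ↔ ∃ p e p' e',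
    (q, ⟨2, fun i => if i.val = 0 then (p, e) else (p', e')⟩) ∈ Δ ∧
      Acc Δ C l p (e.elim 0 (s + ·)) ∧ Acc Δ C r p' (e'.elim 0 (s + ·)) :=
  ⟨fun ⟨ch, a, _, c⟩ => ⟨(ch (0 : Fin 2)).1, (ch (0 : Fin 2)).2, (ch (1 : Fin 2)).1,
    (ch (1 : Fin 2)).2, by
      convert a with i
      revert i
      exact (Fin.forall_fin_two (p := fun i => (if i.val = 0 then _ else _) = ch i)).2 ⟨rfl, rfl⟩,
    c (0 : Fin 2), c (1 : Fin 2)⟩,
    fun ⟨_, _, _, _, a, b, c⟩ => ⟨_, a, by simp, (Fin.forall_fin_two (p := fun i => Acc Δ C (if i.val = 0 then l else r) _ _)).2 ⟨b, c⟩⟩⟩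

def D0 : Set (Tr (Fin.val : Fin 3 → ℕ) Bool 2) :=
  {(false, ⟨0, fun i => i.elim0⟩), (true, ⟨0, fun i => i.elim0⟩),
    (false, ⟨1, fun _ => (false, some ![1, 0])⟩), (true, ⟨1, fun _ => (true, some ![0, 1])⟩),
    (false, ⟨2, fun i => if i.val = 0 then (true, some 0) else (false, none)⟩)}

def C0 : Set (Fin 2 → ℕ) := {s | s 0 = s 1}

lemma a_br (n : ℕ) : ∀ s, Acc D0 C0 (un^[n] lf) true s ↔ s 0 = s 1 + n := by
  induction n with
  | zero => simp [acc_lf, D0, C0]
  | succ n ih =>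
    intro s
    rw [Function.iterate_succ_apply', acc_un]
    constructor
    · rintro ⟨p, e, h, k⟩
      simp only [D0, mem_insert_iff, mem_singleton_iff, Prod.mk.injEq, Sigma.mk.injEq] at h
      have h : (fun _ : Fin 1 => (p, e)) = fun _ => (true, some ![0, 1]) := by simpa using h
      obtain ⟨rfl, rfl⟩ := Prod.mk.inj (congrFun h 0)
      have := (ih _).1 k
      simp at this; omega
    · exact fun h => ⟨true, some ![0, 1], by simp [D0], (ih _).2 (by simp; omega)⟩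

lemma a_sp (t : T) (n : ℕ) : ∀ s, Acc D0 C0 (un^[n] t) false s ↔ Acc D0 C0 t false (s + ![n, 0]) := by
  induction n with
  | zero => intro s; rw [show s + ![0, 0] = s by ext i; fin_cases i <;> simp]; rfl
  | succ n ih =>
    intro s
    rw [Function.iterate_succ_apply', acc_un,
      show s + ![n + 1, 0] = s + ![1, 0] + ![n, 0] by
        rw [add_assoc]; congr 1; ext i; fin_cases i <;> simp [add_comm], ← ih]
    constructor
    · rintro ⟨p, e, h, k⟩
      simp only [D0, mem_insert_iff, mem_singleton_iff, Prod.mk.injEq, Sigma.mk.injEq] at h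
      have h : (fun _ : Fin 1 => (p, e)) = fun _ => (false, some ![1, 0]) := by simpa using h
      obtain ⟨rfl, rfl⟩ := Prod.mk.inj (congrFun h 0)
      exact k
    · exact fun h => ⟨false, some ![1, 0], by simp [D0], h⟩

lemma a_comb (n n' : ℕ → ℕ) (c : ℕ) : ∀ i, Acc D0 C0 (comb n n' c i) false 0 ↔
    ∀ j, i ≤ j → j < i + c → n j = n' j := by
  induction c with
  | zero => intro i; simp [comb, acc_lf, D0, C0]; omega
  | succ c ih =>
    intro i
    rw [comb, a_sp, acc_bn]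
    constructor
    · rintro ⟨p, e, p', e', h, k, k'⟩ j h1 h2
      simp only [D0, mem_insert_iff, mem_singleton_iff, Prod.mk.injEq, Sigma.mk.injEq] at h
      have h : (fun i : Fin 2 => if i.val = 0 then (p, e) else (p', e')) =
          fun i => if i.val = 0 then (true, some 0) else (false, none) := by
        rcases h with h | h | h | h | h
        exacts [absurd h.2.1 (by decide), absurd h.2.1 (by decide), absurd h.2.1 (by decide),
          absurd h.2.1 (by decide), eq_of_heq h.2.2]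
      obtain ⟨rfl, rfl⟩ := Prod.mk.inj (congrFun h 0)
      obtain ⟨rfl, rfl⟩ := Prod.mk.inj (congrFun h 1)
      rcases h1.eq_or_lt with rfl | h1
      · simpa using (a_br _ _).1 k
      · exact (ih _).1 k' j h1 (by omega)
    · exact fun h => ⟨true, some 0, false, none, by simp [D0], (a_br _ _).2
        (by simpa using h i le_rfl (by omega)), (ih _).2 fun j a b => h j (by omega) (by omega)⟩

def Ed (Δ : Set (Tr (Fin.val : Fin 3 → ℕ) Q m)) (q p : Q) : Set (ℕ × (Fin m → ℕ)) :=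
  {x | x.1 = 1 ∧ (q, ⟨1, fun _ => (p, some x.2)⟩) ∈ Δ}

def Pa (Δ : Set (Tr (Fin.val : Fin 3 → ℕ) Q m)) (q p : Q) : Set (ℕ × (Fin m → ℕ)) :=
  {x | x = 0 ∧ q = p} ∪ {x | W (Ed Δ) univ q p x}

lemma acc_pa (h : ∀ δ ∈ Δ, ∀ i, (δ.2.2 i).2 ≠ none) {t : T} {n q s} :
    Acc Δ C (un^[n] t) q s ↔ ∃ p d, (n, d) ∈ Pa Δ q p ∧ Acc Δ C t p (s + d) := by
  constructor
  · induction n generalizing q s with
    | zero => exact fun k => ⟨q, 0, Or.inl ⟨rfl, rfl⟩, by simpa⟩
    | succ n ih =>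
      rw [Function.iterate_succ_apply', acc_un]
      rintro ⟨p, _ | e, a, b⟩
      · exact (h _ a (0 : Fin 1) rfl).elim
      obtain ⟨p', d, ⟨z, rfl⟩ | z, k⟩ := ih b
      · obtain ⟨rfl, rfl⟩ := Prod.mk.inj z
        exact ⟨p, e, Or.inr (.one ⟨rfl, a⟩), by simpa using k⟩
      · refine ⟨p', e + d, Or.inr ?_, by simpa [add_assoc] using k⟩
        rw [add_comm]
        exact W.cat (x := (1, e)) (mem_univ p) (.one (show (1, e) ∈ Ed Δ q p from ⟨rfl, a⟩)) z
  · rintro ⟨p, d, ⟨z, rfl⟩ | z, k⟩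
    · obtain ⟨rfl, rfl⟩ := Prod.mk.inj z
      simpa using k
    suffices ∀ x, W (Ed Δ) univ q p x → ∀ t s, Acc Δ C t p (s + x.2) → Acc Δ C (un^[x.1] t) q s from
      this _ z t s k
    clear z k
    intro x z
    induction z with
    | one a => intro t s k; rw [a.1]; exact acc_un.2 ⟨_, _, a.2, k⟩
    | cat _ _ _ a b =>
      intro t s k
      rw [Prod.fst_add, Function.iterate_add_apply]
      exact a _ _ (b _ _ (by simpa [add_assoc] using k))

def Blk (Δ : Set (Tr (Fin.val : Fin 3 → ℕ) Q m)) (q p q' : Q) :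
    Set (ℕ × (Fin m → ℕ) × (Fin m → ℕ) × (Fin m → ℕ)) :=
  {x | ∃ o d e e', (x.1, d) ∈ Pa Δ q o ∧
    (o, ⟨2, fun i => if i.val = 0 then (p, some e) else (q', some e')⟩) ∈ Δ ∧
    x.2.2.1 = x.2.1 + d + e ∧ x.2.2.2 = x.2.1 + d + e'}

lemma acc_comb (h : ∀ δ ∈ Δ, ∀ i, (δ.2.2 i).2 ≠ none) (n n' : ℕ → ℕ) (c : ℕ) : ∀ i q s,
    Acc Δ C (comb n n' c i) q s ↔ ∃ y : ℕ → (Q × Q) × (Fin m → ℕ) × (Fin m → ℕ),
      (y i).1.1 = q ∧ (y i).2.1 = s ∧ Acc Δ C lf (y (i + c)).1.1 (y (i + c)).2.1 ∧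
      ∀ j, i ≤ j → j < i + c → Acc Δ C (un^[n' j] lf) (y j).1.2 (y j).2.2 ∧
        (n j, (y j).2.1, (y j).2.2, (y (j + 1)).2.1) ∈ Blk Δ (y j).1.1 (y j).1.2 (y (j + 1)).1.1 := by
  induction c with
  | zero =>
    exact fun i q s => ⟨fun k => ⟨fun _ => ((q, q), s, s), rfl, rfl, k, by omega⟩,
      fun ⟨y, a, b, k, _⟩ => a ▸ b ▸ k⟩
  | succ c ih =>
    intro i q s
    simp only [comb, acc_pa h (n := n i), acc_bn, ih]
    constructor
    · rintro ⟨o, d, k, p, _ | e, q', _ | e', a, b, y, y1, y2, y3, y4⟩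
      · exact (h _ a (0 : Fin 2) rfl).elim
      · exact (h _ a (0 : Fin 2) rfl).elim
      · exact (h _ a (1 : Fin 2) rfl).elim
      refine ⟨Function.update y i ((q, p), s, s + d + e), by simp, by simp, ?_, fun j j1 j2 => ?_⟩
      · rwa [Function.update_of_ne (by omega), add_comm c, ← add_assoc]
      rw [Function.update_of_ne (show j + 1 ≠ i by omega)]
      rcases j1.eq_or_lt with rfl | j1
      · rw [Function.update_self, y1]
        exact ⟨b, o, d, e, e', k, a, rfl, y2⟩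
      · rw [Function.update_of_ne j1.ne']
        exact y4 j j1 (by omega)
    · rintro ⟨y, rfl, rfl, y3, y4⟩
      obtain ⟨b, o, d, e, e', k, a, e1, e2⟩ := y4 i le_rfl (by omega)
      exact ⟨o, d, k, _, _, _, _, a, by rwa [show (y i).2.2 = _ from e1] at b, y, rfl, e2, by rwa [add_assoc, add_comm 1],
        fun j j1 j2 => y4 j (by omega) (by omega)⟩

lemma main [Finite Q] (hΔ : Δ.Finite) (hC : IsSemilinearSet C)
    (h : ∀ δ ∈ Δ, ∀ i, (δ.2.2 i).2 ≠ none) (q0 : Q)
    (hL : ∀ n n', Acc Δ C (comb n n' (m + 1) 0) q0 0 ↔ ∀ j < m + 1, n j = n' j) : False := by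
  classical
  obtain ⟨K, hK⟩ : ∃ K, ∀ δ ∈ Δ, ∀ i e c, (δ.2.2 i).2 = some e → e c ≤ K := by
    obtain ⟨K, hK⟩ := (hΔ.image fun δ => ∑ i, ∑ c, (δ.2.2 i).2.elim 0 (· c)).bddAbove
    refine ⟨K, fun δ a i e c k => le_trans (le_trans ?_ (Finset.single_le_sum
      (fun _ _ => zero_le) (Finset.mem_univ i))) (hK (mem_image_of_mem _ a))⟩
    rw [k]
    exact Finset.single_le_sum (f := e) (fun _ _ => zero_le) (Finset.mem_univ c)
  have fb : {e : Fin m → ℕ | ∀ c, e c ≤ K}.Finite := finite_Iic fun _ => K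
  have pb : ∀ q p x, x ∈ Pa Δ q p → ∀ c, x.2 c ≤ K * x.1 := by
    rintro q p x (⟨rfl, -⟩ | z) c
    · simp
    induction z with
    | one a => rw [a.1, mul_one]; exact hK _ a.2 (0 : Fin 1) _ c rfl
    | cat _ _ _ a b => simp only [Prod.fst_add, Prod.snd_add, Pi.add_apply, mul_add]; omega
  have sP : ∀ q p, IsSemilinearSet (Pa Δ q p) := fun q p =>
    (IsSemilinearSet.of_finite ((finite_singleton 0).subset fun _ k => k.1)).union
      (kleene (fun q p => .of_finite (((finite_singleton 1).prod fb).subset fun x k =>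
        ⟨k.1, fun c => hK _ k.2 (0 : Fin 1) _ c rfl⟩)) finite_univ q p)
  have cond : ∀ {M : Type} [AddCommMonoid M] (p : Prop) {s : Set M}, IsSemilinearSet s →
      IsSemilinearSet {x | p ∧ x ∈ s} := fun p s k => by by_cases z : p <;> simp [z, k]
  let ad : (ℕ × (Fin m → ℕ)) × (Fin m → ℕ) →+ (Fin m → ℕ) :=
    AddMonoidHom.snd _ _ + (AddMonoidHom.snd ℕ _).comp (AddMonoidHom.fst _ _)
  have sL : ∀ p, IsSemilinearSet {x : ℕ × (Fin m → ℕ) | Acc Δ C (un^[x.1] lf) p x.2} := fun p => by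
    convert IsSemilinearSet.iUnion fun o => cond ((o, ⟨0, fun i => i.elim0⟩) ∈ Δ)
      ((((sP p o).preimage (AddMonoidHom.fst (ℕ × (Fin m → ℕ)) (Fin m → ℕ))).inter (hC.preimage ad)).image
        ((AddMonoidHom.fst ℕ (Fin m → ℕ)).prodMap (AddMonoidHom.id (Fin m → ℕ))))
    ext x
    simp only [acc_pa h, acc_lf, mem_ofPred_eq, mem_iUnion]
    exact exists_congr fun o => ⟨fun ⟨d, a, b, c⟩ => ⟨b, ((x.1, d), x.2), ⟨a, c⟩, rfl⟩,
      fun ⟨b, y, ⟨a, c⟩, e⟩ => ⟨y.1.2, by rw [← e]; exact ⟨a, b, c⟩⟩⟩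
  have sB : ∀ q p q', IsSemilinearSet (Blk Δ q p q') := fun q p q' => by
    convert IsSemilinearSet.iUnion fun o => IsSemilinearSet.biUnion (fb.prod fb) fun e _ => cond
      ((o, ⟨2, fun i => if i.val = 0 then (p, some e.1) else (q', some e.2)⟩) ∈ Δ)
      ((((sP q o).preimage (AddMonoidHom.fst (ℕ × (Fin m → ℕ)) (Fin m → ℕ))).image
        (((AddMonoidHom.fst ℕ (Fin m → ℕ)).comp (AddMonoidHom.fst _ (Fin m → ℕ) )).prod
          ((AddMonoidHom.snd (ℕ × (Fin m → ℕ)) (Fin m → ℕ)).prod (ad.prod ad)))).vadd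
        (0, 0, e.1, e.2))
    ext x
    simp only [Blk, mem_ofPred_eq, mem_iUnion]
    refine exists_congr fun o => ⟨fun ⟨d, e, e', a, b, c, c'⟩ => ⟨(e, e'),
      ⟨fun c => hK _ b (0 : Fin 2) _ c rfl, fun c => hK _ b (1 : Fin 2) _ c rfl⟩, b, _,
      ⟨((x.1, d), x.2.1), a, rfl⟩, ?_⟩, ?_⟩
    · simp [Prod.ext_iff, c, c', add_comm, ad]
    · rintro ⟨e, -, b, _, ⟨y, a, rfl⟩, rfl⟩
      exact ⟨y.1.2, e.1, e.2, by simpa using a, b, by simp [add_comm, ad], by simp [add_comm, ad]⟩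
  let M := Fin (m + 2) → ℕ × (Fin m → ℕ) × (Fin m → ℕ)
  let ev : ℕ → M →+ ℕ × (Fin m → ℕ) × (Fin m → ℕ) := fun j =>
    Pi.evalAddMonoidHom _ (Fin.ofNat (m + 2) j)
  let n := fun j => (AddMonoidHom.fst _ _).comp (ev j)
  let s := fun j => (AddMonoidHom.fst _ _).comp ((AddMonoidHom.snd _ _).comp (ev j))
  let r := fun j => (AddMonoidHom.snd _ _).comp ((AddMonoidHom.snd _ _).comp (ev j))
  let R : (Fin (m + 2) → Q × Q) → Set M := fun z => {x | (z (Fin.ofNat _ 0)).1 = q0 ∧ x ∈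
    s 0 ⁻¹' {0} ∩ ((AddMonoidHom.prod 0 (s (m + 1))) ⁻¹' {x : ℕ × (Fin m → ℕ) |
      Acc Δ C (un^[x.1] lf) (z (Fin.ofNat _ (m + 1))).1 x.2} ∩ ⋂ j ∈ Iio (m + 1),
      ((n j).prod (r j)) ⁻¹' {x | Acc Δ C (un^[x.1] lf) (z (Fin.ofNat _ j)).2 x.2} ∩
      ((n j).prod ((s j).prod ((r j).prod (s (j + 1))))) ⁻¹'
        Blk Δ (z (Fin.ofNat _ j)).1 (z (Fin.ofNat _ j)).2 (z (Fin.ofNat _ (j + 1))).1)}
  have : ∀ z, ∃ B, ∀ x ∈ R z, ∃ j < m + 1,
      n j x ≤ B * (1 + ∑ i ∈ Finset.Ioo j (m + 1), n i x) := fun z => by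
    refine tri (K := 2 * K) m.lt_succ_self n r (cond _ (((IsSemilinearSet.singleton 0).preimage
      _).inter (((sL _).preimage _).inter (.biInter (finite_Iio _) fun j _ =>
        ((sL _).preimage _).inter ((sB _ _ _).preimage _))))) ?_ ?_
    · rintro j hj x ⟨x1, x2, x3, x4⟩ y ⟨-, -, -, y4⟩ e
      simp only [mem_iInter] at x4 y4
      have := (hL (fun i => n i x) (Function.update (fun i => n i x) j (n j y))).1
        ((acc_comb h _ _ _ _ _ _).2 ⟨fun i => (z (Fin.ofNat _ i), s i x, r i x), x1, x2,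
          by rw [zero_add]; exact x3, fun i _ hi => ⟨?_, (x4 i (by simpa using hi)).2⟩⟩) j hj
      · simpa using this
      by_cases k : i = j
      · subst k
        rw [Function.update_self]
        change Acc Δ C _ _ (r i x)
        rw [e]
        exact (y4 i hj).1
      · rw [Function.update_of_ne k]
        exact (x4 i (by simpa using hi)).1
    · rintro j hj x ⟨-, -, -, x4⟩ c
      simp only [mem_iInter] at x4
      obtain ⟨o, d, e, e', a, b, a1, a2⟩ := (x4 j (Nat.lt_of_succ_lt hj)).2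
      obtain ⟨o', d', f, f', a', b', a3, -⟩ := (x4 (j + 1) hj).2
      have := hK _ b (0 : Fin 2) _ c rfl
      have := hK _ b (1 : Fin 2) _ c rfl
      have := hK _ b' (0 : Fin 2) _ c rfl
      have := pb _ _ _ a' c
      replace a1 := congrFun a1 c
      replace a2 := congrFun a2 c
      replace a3 := congrFun a3 c
      simp only [AddMonoidHom.prod_apply, Pi.add_apply] at *
      constructor <;> nlinarith
  choose B hB using this
  obtain ⟨b, hb⟩ := (finite_range B).bddAbove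
  obtain ⟨N, hN⟩ : ∃ N, N = b * (m + 2) + 1 := ⟨_, rfl⟩
  obtain ⟨y, y1, y2, y3, y4⟩ := (acc_comb h _ _ _ _ _ _).1
    ((hL (fun j => N ^ (m + 1 - j)) _).2 fun _ _ => rfl)
  have md : ∀ j < m + 2, (Fin.ofNat (m + 2) j : ℕ) = j := fun j => Nat.mod_eq_of_lt
  let x : M := fun i => (N ^ (m + 1 - i), (y i).2)
  have xe : ∀ j < m + 2, ev j x = (N ^ (m + 1 - j), (y j).2) := fun j hj => by
    change x _ = _
    simp only [x, md j hj]
  obtain ⟨j, hj, k⟩ := hB (fun i => (y i).1) x ⟨y1, y2, by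
    simpa [s, xe, md] using y3, mem_iInter₂.2 fun j hj => by
      have := y4 j zero_le (by simpa using hj)
      have h1 : j < m + 1 := hj
      simpa [n, s, r, xe j (by omega), xe (j + 1) (by omega), Nat.mod_eq_of_lt (show j < m + 2 by omega),
        Nat.mod_eq_of_lt (show j + 1 < m + 2 by omega)] using this⟩
  have N1 : 1 ≤ N := by omega
  have := Finset.sum_le_card_nsmul (Finset.Ioo j (m + 1)) (fun i => n i x) (N ^ (m - j))
    fun i hi => by
      rw [Finset.mem_Ioo] at hi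
      simp only [n, AddMonoidHom.comp_apply, xe i (by omega)]
      exact Nat.pow_le_pow_right N1 (show m + 1 - i ≤ _ by omega)
  have p := Nat.one_le_pow (m - j) N N1
  simp only [n, AddMonoidHom.comp_apply, xe j (by omega), Nat.card_Ioo, smul_eq_mul] at k this
  have k2 := k.trans (Nat.mul_le_mul (hb ⟨_, rfl⟩) (Nat.add_le_add p (this.trans
    (Nat.mul_le_mul_right _ (show _ ≤ m + 1 by omega)))))
  rw [show m + 1 - j = m - j + 1 by omega] at k2
  change N ^ (m - j + 1) ≤ _ at k2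
  rw [pow_succ] at k2
  generalize N ^ (m - j) = X at *
  nlinarith

theorem result : ∃ (S : Type) (_ : Finite S) (rk : S → ℕ) (L : Set (WType fun a => Fin (rk a))),
    Recog rk true L ∧ ¬ Recog rk false L := by
  refine ⟨Fin 3, inferInstance, Fin.val, _, ⟨2, by norm_num, Bool, inferInstance, false, D0, C0,
    by simp [D0], ?_, by simp, rfl⟩, fun ⟨m, _, Q, _, q0, Δ, C, h1, h2, h3, h4⟩ =>
      main h1 h2 (h3 rfl) q0 fun n n' => ?_⟩
  · simpa [C0] using isSemilinearSet_setOfPred_eq (M := Fin 2 → ℕ) 0 0 (Pi.evalAddMonoidHom _ 0)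
      (Pi.evalAddMonoidHom _ 1)
  · simpa using (Set.ext_iff.1 h4 (comb n n' (m + 1) 0)).symm.trans (a_comb n n' _ 0)

end Pool.Agent.Results.MP_78a33a_lc.Yes
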